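import Pool.Agent.X180.OJ.Top
import Pool.Agent.X180.Abn.Sys1

/-!
# Viehweg's inequality over images of highly ramified linear systems, for towers of products of
constant orbifolds and moving arrangements

Let `X` be a projective manifold (or a projective variety with canonical singularities) and

  `X ⇢ W_l ⇢ ... ⇢ W_1 ⇢ W_0`, `l ≥ 0`,

dominant rational maps. Suppose:

* (the base) `W_0`, of dimension `≥ 1`, is the image of a linear system `V` of dimension `n` on `X`, and
  there are members `D_i` of `V`, given by elements `φ i`, which span `V` such that `V` is not the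
  direct sum of two nonzero subspaces which together contain all the `φ i`, and if a prime divisor `P`
  of `X` is in one of the `D_i` then the multiplicities of `P` in some `D_i` and `D_i'` differ by at
  least `t`, where `2 t ≥ R (n - dim W_0 + 1) (n - dim W_0 + 2)`, `R = n + 2` (and even `R = n + 1`, if
  there are `n + 3` different members `D_i`). The `D_i` are in arbitrary position otherwise; let
  `k = dim W_0` if the inequality for `t` is strict, and `k = 0` otherwise;
* (the steps of the tower) for each `i < l` the fibres of `W_{i+1}` over `W_i`, of dimension `e_i`,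
  *with the multiplicities of the fibres of `X` over `W_{i+1}`*, correspond to the product of one
  orbifold `V_i` (which does not depend on the point of `W_i`) and of moving log canonical
  arrangements: there are a variety `X'` with a generically finite map `X' ⇢ X` (ramified anywhere)
  and a rational map of `X'` to `V_i × P^{r_1} × ... × P^{r_c}`, `r_j ≥ 1`, which is dominant on the
  fibres of `X'` over `W_i`, and whose fibres (over `W_i`) are, up to finite maps, the fibres of
  `X' ⇢ W_{i+1}`; `a (p) ≥ 0` is the log discrepancy of an orbifold divisor at the places `p` of `V_i`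
  in the image of the prime divisors of `X`, and the Kodaira dimension of `(V_i, a)` is at least
  `h_i ≥ 0`; in each `P^{r_j}` there are any hyperplanes `A j k = 0`, in any position, which move with
  the point of a variety finite over `W_i`, with weights `w j k ≥ 0`, such that the arrangement is log
  canonical (the sum of the weights of hyperplanes with a common point is at most the codimension of
  their intersection) and `∑ k, w j k ≥ r_j + 1`. Let `Q` be a place of the function field of `X'` over
  a prime divisor `P` of `X` which dominates `W_i` but not `W_{i+1}`, with ramification index `ε`, let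
  `e j k` be the multiplicities of the hyperplanes at `Q`, and
  `R = ∑ (mx_j - ∑ w j k e j k)`, where `mx_j` is the greatest sum of `r_j + 1` of the `e j k`
  whose hyperplanes have no common point. Then `ε ≤ ν a (p) + R` if `Q` lies over the place `p` of
  `V_i`, with ramification index `ν`; and if `Q` dominates `V_i` then `ε ≤ R`, or `ε ≤ 1` if all `e j k`
  are zero. Let `λ_i` be the sum of `h_i` and of the `r_j` with `∑ k, w j k > r_j + 1`.
* (the fibres of `X` over `W_l`) there is a correspondence `X'` as above between `X` and a relative
  product `P^{r_1} × ... × P^{r_c}` over `W_l` (`c = 0` is allowed: then `X ⇢ W_l` is generically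
  finite), with log canonical moving hyperplane arrangements with weights in `[0, 1]` (with any sum)
  and `ε ≤ R` (`ε ≤ 1`, if all `e j k` are zero) at the prime divisors of `X` which dominate `W_l`; and
  if `Q` is a place of the function field of `X'` over a prime divisor of `P^{r_1} × ... × P^{r_c}` over
  `W_l`, with ramification index `ρ`, and with ramification index `ε` over `X`, then
  `ρ - ε ≤ ∑ w j k e j k`. Let `λ` be the sum of the `r_j` with `∑ k, w j k > r_j + 1`.

Then, if `∑ k, w j k ≥ r_j + 1` for all `j` (for the fibres over `W_l`),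

  `κ(X) ≥ k + λ_0 + λ_1 + ... + λ_{l-1} + λ`,

and otherwise `κ(X) = ν(X) = -∞`. If moreover `k = dim W_0` and `λ_i = e_i` for all `i`, then
`κ(X) = ν(X) = dim W_l + λ` in the first case.

Relation with Viehweg's question, for `f : X ⇢ Y = W_0`: if all `λ_i = e_i` then the general fibre `F`
of `f` has `κ(F) = λ_0 + ... + λ_{l-1} + λ` or `κ(F) = -∞` (by the same theorem for towers over a point,
see `MP_f72953_ag.OrbifoldBases` for steps which are constant or arrangements), so that
`κ(X) ≥ k + κ(F)`. If `k = dim Y` this is `κ(X) ≥ dim Y + κ(F) ≥ κ(F) + max (κ(Y), Var (f))`, Viehweg's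
inequality for `f`, without the assumption `κ(Y) ≥ 0` (`Y` may be rational), and `f` is not assumed to
be a morphism; if `2 t = R (n - dim Y + 1) (n - dim Y + 2)`, where `Y` is like an orbifold of
Calabi-Yau type, it is `κ(X) ≥ κ(F)`.

For instance `W_{i+1}` may be a quotient of the product of a variety `V_i` and of a family of double
covers of `P^1` over a covering of `W_i`, by a finite group which acts diagonally, with fixed points:
at the divisors over the fixed locus neither the places of `V_i` nor the multiplicities of the
hyperplanes suffice, but the sum of the two terms in `ε ≤ ν a (p) + R` does.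

The language and the definitions of `Pool.Agent.Y172` are used: `X` is given by the homogeneous
coordinates `y` of its generic point, with values in the function field `K` of `X`; the prime divisors
of `X` are places `P` of `K`, `P.ord` is the order along `P`; `kodairaDim` and `numericalDim` are the
literal definitions of the Kodaira and of the numerical dimension by means of the dimensions of the
spaces of sections of `m K_X` and of `m K_X + A`. `E i` is the function field of `W_i`. Definitions:
`Pool/Agent/X180/OD/Defs` (`OrbifoldKodGe`), `OJ/Defs` (`JointFibres`, `IsTower`), `OP/CanDefs`.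

Proof: the forms of a step are products of the pull backs of the forms of `V_i`, of determinants of
logarithmic derivatives of the linear forms, and of one joint Wronskian of the coordinates of `V_i` and
of the `P^{r_j}`; locally, at `Q`, one compares with the arrangement enlarged by a simplex of
logarithmic coordinates of `V_i` at `p` (`Pool.Agent.X180.OJ.joint_est`). The coefficients are
algebraic over the function field of `W_{i+1}`, and their norms are estimated at the prime divisors of
`X` (`Pool.Agent.X180.OJ.joint_part`). The forms of the steps are multiplied along adapted regular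
vector fields, and with products of generalised Wronskians of the `φ i`
(`Pool.Agent.TH585.SV.lin_fib`, starting library). If some `∑ k, w j k < r_j + 1` the traces of the
pull backs to `X'` of the sections of `m K_X + A` vanish for large `m`.
-/

set_option autoImplicit false

open FF Pool.Agent.W602.GT Pool.Agent.Y172 Pool.Agent.Y191 Pool.Agent.X180.OP
open Pool.Agent.X180.OJ (IsTower dcan_non dcan_ab)

namespace Pool.Agent.Results.MP_5c318e_ag.JointTowersOverSystems

section

variable {K : Type} [Field K] [Algebra ℂ K]

/-- The function field of the image of the rational map which is given by the linear system `V`: the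
field generated by the quotients of the members. -/
noncomputable def ImageField (V : Submodule ℂ K) : IntermediateField ℂ K :=
  IntermediateField.adjoin ℂ {y : K | ∃ f ∈ V, ∃ g ∈ V, y = f / g}

/-- `V` is not the direct sum of two nonzero subspaces which together contain all the `φ i`. -/
def Indecomposable {q : ℕ} (V : Submodule ℂ K) (φ : Fin q → K) : Prop :=
  ∀ V₁ V₂ : Submodule ℂ K, V₁ ⊔ V₂ = V → V₁ ⊓ V₂ = ⊥ → (∀ i, φ i ∈ V₁ ∨ φ i ∈ V₂) →
    V₁ = ⊥ ∨ V₂ = ⊥

/-- There are `r` members `φ i` of which no two are proportional. -/
def Different (r : ℕ) {q : ℕ} (φ : Fin q → K) : Prop :=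
  ∃ τ : Fin r → Fin q, ∀ i j, i ≠ j → ∀ t : ℂ, φ (τ i) ≠ t • φ (τ j)

/-- The condition on the multiplicities: if the prime divisor `P` of `X` is a component of one of the
divisors `D i` (the order of `φ i` at `P` is not the minimum `a` of the orders of the members of `V`),
then for some members `D i`, `D i'` the difference of the multiplicities of `P` is at least `t`. -/
def SystemMultiplicities {N : ℕ} (y : Fin (N + 1) → K) {q : ℕ} (V : Submodule ℂ K)
    (φ : Fin q → K) (t : ℝ) : Prop :=
  ∀ P, IsPrimeDivisor y P → ∀ a : ℤ, (∀ f ∈ V, f = 0 ∨ a ≤ P.ord f) →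
    (∃ f ∈ V, f ≠ 0 ∧ P.ord f = a) → (∃ i, P.ord (φ i) ≠ a) →
    ∃ i i', t ≤ ((P.ord (φ i) - P.ord (φ i') : ℤ) : ℝ)

end

/-- **Viehweg's inequality.** Let `X` be a projective variety with canonical singularities, `V` a linear
system on `X` of dimension `n` whose rational map has the image `W_0`, `1 ≤ D 0 = dim W_0 ≤ n`, and
`X ⇢ W_l ⇢ ... ⇢ W_0` a tower of dominant rational maps whose steps are as in `JointFibres` for the
prime divisors of `X`, of dimensions `e i` and log Kodaira dimensions `lam i`. Let `φ i` be nonzero
members which span `V`, such that `V` is not the direct sum of two nonzero subspaces which together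
contain all the `φ i`. Let `R = n + 2`, or `R = n + 1` if there are `n + 3` different members `φ i`, and
`t ≥ R (n - D 0 + 1) (n - D 0 + 2) / 2` a number for which the condition on the multiplicities holds.
Let the fibres of `X` over `W_l` be as in `CanonicalFibres`. If `r j + 1 ≤ ∑ i, w j i` for all `j` then
`κ(X) ≥ ∑ i, lam i + big`; otherwise `κ(X) = ν(X) = -∞`. If the inequality for `t` is strict then
moreover `κ(X) ≥ dim W_0 + ∑ i, lam i + big` in the first case, and `κ(X) = ν(X) = dim W_l + big` if
moreover `lam i = e i` for all `i`. -/
theorem result {n q : ℕ} (K : Type) [Field K] [Algebra ℂ K] (N l c : ℕ)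
    (E : Fin (l + 1) → IntermediateField ℂ K) (D : Fin (l + 1) → ℕ) (e lam : Fin l → ℕ)
    (hd : 1 ≤ D 0) (hdn : D 0 ≤ n) (r s : Fin c → ℕ) (y : Fin (N + 1) → K)
    (hy : IsCanonicalVariety y (D (Fin.last l) + ∑ j, r j))
    (V : Submodule ℂ K) (hn : Module.finrank ℂ V = n + 1) (hE0 : E 0 = ImageField V)
    (hT : IsTower {P | IsPrimeDivisor y P} (fun _ => 0) E D e lam)
    (φ : Fin q → K) (hφ0 : ∀ i, φ i ≠ 0) (hφ : Submodule.span ℂ (Set.range φ) = V)
    (hI : Indecomposable V φ) (R : ℕ) (hR : R = n + 2 ∨ (Different (n + 3) φ ∧ R = n + 1)) (t : ℝ)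
    (ht : (R : ℝ) * (((n : ℝ) - D 0 + 1) * ((n : ℝ) - D 0 + 2)) ≤ 2 * t)
    (hm : SystemMultiplicities y V φ t)
    (w : ∀ j, Fin (s j) → ℚ) (hF : CanonicalFibres y (E (Fin.last l)) r s w) :
    CanonicalNonvanishing y (D (Fin.last l) + ∑ j, r j) (∑ i, lam i + big r s w) r s w ∧
      ((R : ℝ) * (((n : ℝ) - D 0 + 1) * ((n : ℝ) - D 0 + 2)) < 2 * t →
        CanonicalNonvanishing y (D (Fin.last l) + ∑ j, r j) (D 0 + ∑ i, lam i + big r s w) r s w ∧
        ((∀ i, lam i = e i) →
          CanonicalAbundance y (D (Fin.last l) + ∑ j, r j) (D (Fin.last l)) r s w)) := by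
  have hn' : D (Fin.last l) + ∑ j, r j = D 0 + (∑ i, e i + ∑ j, r j) := by
    rw [Pool.Agent.X180.TP.dims fun i => (hT.2 i).2.1, add_assoc]
  have hV : Algebra.trdeg ℂ (ImageField V) = (D 0 : ℕ) := by
    rw [← hE0]
    exact hT.1 0
  have hK : Algebra.trdeg ℂ K = (D 0 + (∑ i, e i + ∑ j, r j) : ℕ) := by
    rw [hy.2.1, hn']
  have hz : Pool.Agent.X180.Iso.hor (ImageField V) (fun _ : Place ℂ K => (0 : ℝ)) = fun _ => 0 := by
    funext P
    unfold Pool.Agent.X180.Iso.hor
    split_ifs <;> rfl
  have h2 : ∀ lam' : ℕ, Pool.Agent.X180.Tow.HasForms (D 0 + (∑ i, e i + ∑ j, r j))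
      {P | IsPrimeDivisor y P} (fun _ => 0) (E 0) (∑ i, e i + ∑ j, r j) lam' →
      KodairaGe (D 0 + (∑ i, e i + ∑ j, r j)) {P | IsPrimeDivisor y P} (fun _ => 0) lam' ∧
      ((R : ℝ) * (((n : ℝ) - D 0 + 1) * ((n : ℝ) - D 0 + 2)) < 2 * t → ∀ κ : ℕ, κ + 1 = D 0 + 1 →
        KodairaGe (D 0 + (∑ i, e i + ∑ j, r j)) {P | IsPrimeDivisor y P} (fun _ => 0)
          (κ + lam')) := by
    intro lam' h0
    rw [hE0] at h0
    have h0' : Pool.Agent.X180.Tow.HasForms (D 0 + (∑ i, e i + ∑ j, r j))
        {P | IsPrimeDivisor y P} (Pool.Agent.X180.Iso.hor (ImageField V) fun _ => 0) (ImageField V)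
        (∑ i, e i + ∑ j, r j) lam' := by
      rw [hz]
      exact h0
    exact Pool.Agent.X180.Iso.sys_pair (c := 1) (δ := fun _ => 0) hd hdn hK hV hφ0 hφ
      (Pool.Agent.X180.Abn.dcp_one hφ hn) (Pool.Agent.X180.Abn.not_dcp hI)
      (hR.imp (fun h => by omega) fun h => ⟨rfl, h⟩) ht
      (fun _ _ => le_rfl) (fun P hPX _ a ha hb hc => by
        obtain ⟨i, i', h⟩ := hm P hPX a ha hb hc
        exact ⟨i, i', rfl, by simpa using h⟩) h0'
  refine ⟨?_, fun hs => ⟨dcan_non hy hT hF fun lam' h0 => (h2 lam' h0).2 hs (D 0) rfl,
    fun hle => dcan_ab hy hT hle hF fun lam' h0 => (h2 lam' h0).2 hs (D 0) rfl⟩⟩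
  have h1 := dcan_non (k := 0) hy hT hF fun lam' h0 => by
    rw [zero_add]
    exact (h2 lam' h0).1
  rwa [zero_add] at h1

end Pool.Agent.Results.MP_5c318e_ag.JointTowersOverSystems
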