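import Pool.Agent.X180.OP.Can

/-!
# Additivity of Kodaira dimensions for towers over any base

Let `X` be a projective variety with canonical singularities (for instance a smooth projective
variety) and

  `X ⇢ W_l ⇢ ... ⇢ W_1 ⇢ W_0 = (a point)`, `l ≥ 0`,

dominant rational maps. Suppose that for each `i < l` one of the following holds:

* (isotrivial) after a generically finite base change `W_i' → W_i` the variety
  `W_{i+1} ×_{W_i} W_i'` has a generically finite rational map to `W_i' × V_i` over `W_i'`, where
  `V_i` is a smooth projective variety of dimension `e_i = dim W_{i+1} - dim W_i` with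
  `κ(V_i) ≥ λ_i ≥ 0`. For `i = 0` this holds for *every* variety `W_1 = Y` with `κ(Y) ≥ λ_0`
  (`V_0 = Y`);
* (orbifold) the fibres of `W_{i+1}` over `W_i`, *with the multiplicities of the fibres of `X` over
  `W_{i+1}`*, correspond to moving log canonical arrangements: there is a variety `X'` with a
  generically finite map `X' ⇢ X` (ramified anywhere) and a rational map over `W_i` of `X'` to a
  relative product of projective spaces `P^{r_1} × ... × P^{r_c}`, `r_j ≥ 1`, whose fibres are, up to
  finite maps, the fibres of `X' ⇢ W_{i+1}`; in each `P^{r_j}` there are any hyperplanes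
  `A j k = 0`, in any position, which move with the point of a variety finite over `W_i`, with weights
  `w j k ≥ 0`, such that the arrangement is log canonical (the sum of the weights of hyperplanes with a
  common point is at most the codimension of their intersection) and `∑ k, w j k ≥ r_j + 1`. If `Q` is
  a place of the function field of `X'` over a prime divisor `P` of `X` which dominates `W_i` but not
  `W_{i+1}`, with ramification index `ε`, and `e j k` are the multiplicities of the hyperplanes at `Q`,
  not all zero, then `ε ≤ ∑ (mx_j - ∑ w j k e j k)`, where `mx_j` is the greatest sum of `r_j + 1` of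
  the `e j k` whose hyperplanes have no common point (`ε ≤ 1`, if all `e j k` are zero). Let `λ_i` be
  the sum of the `r_j` with `∑ k, w j k > r_j + 1`. (So `W_{i+1}` may be rational over `W_i`: for
  instance a bundle of projective lines, such that the multiplicities of the fibres of `X` over four
  sections are `2`, or over three sections `(3, 3, 3)`, `(2, 4, 4)` or `(2, 3, 6)`, at least.)

Suppose that there is a correspondence `X'` as above between `X` and a relative product
`P^{r_1} × ... × P^{r_c}` over `W_l`, with log canonical moving hyperplane arrangements with weights in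
`[0, 1]` (with any sum) and the same condition at the prime divisors of `X` which dominate `W_l`; and
if `Q` is a place of the function field of `X'` over a prime divisor of `P^{r_1} × ... × P^{r_c}` over
`W_l`, with ramification index `ρ`, and with ramification index `ε` over `X`, then
`ρ - ε ≤ ∑ w j k e j k`. Let `λ` be the sum of the `r_j` with `∑ k, w j k > r_j + 1`. For instance the
fibres may be products of elliptic curves, or K3 surfaces which are double planes over six lines, with
any variation.

Then, if `∑ k, w j k ≥ r_j + 1` for all `j` (for the fibres over `W_l`),

  `κ(X) ≥ λ_0 + λ_1 + ... + λ_{l-1} + λ`,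

and otherwise `κ(X) = ν(X) = -∞`. If moreover `λ_i = e_i` for all `i`, then
`κ(X) = ν(X) = dim W_l + λ` in the first case.

Relation with Viehweg's question: let `f : X → Y` be a fibration with `κ(Y) ≥ 0` and general fibre
`F`, and `W_1 = Y`. The first part is the inequality `κ(X) ≥ κ(Y) + λ_1 + ... + λ_{l-1} + λ`. If
`λ_i = e_i` for `i ≥ 1`, then the second part, for `F`, says that
`κ(F) = ν(F) = λ_1 + ... + λ_{l-1} + λ` (or both are `-∞`), so that `κ(X) ≥ κ(Y) + κ(F)`; and then `F`
has a good minimal model (Lai, Gongyo and Lehmann), and `κ(X) ≥ κ(F) + max (κ(Y), Var(f))` by the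
theorem of Kawamata, also for all other fibrations with the general fibre `F`.

The language and the definitions of `Pool.Agent.Y172` are used: `X` is given by the homogeneous
coordinates `y` of its generic point, with values in the function field `K` of `X`; the prime divisors
of `X` are places `P` of `K`, `P.ord` is the order along `P`; `kodairaDim` and `numericalDim` are the
literal definitions of the Kodaira and of the numerical dimension by means of the dimensions of the
spaces of sections of `m K_X` and of `m K_X + A`. `E i` is the function field of `W_i`; `E 0 = ℂ`.
Definitions: `Pool/Agent/X180/OP/Defs` (`OrbifoldFibres`), `MixDefs`, `CanDefs`.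

Proof: for an orbifold step `Z' → Z` of the tower the products of determinants of logarithmic
derivatives of the linear forms are forms along the fibres of `X' → Z`, of degree `dim Z' - dim Z`;
their coefficients with respect to a basis of the vector fields of `Z'` over `Z` are algebraic over the
function field of `Z'`, and their norms are estimated at the prime divisors of `X`
(`Pool.Agent.X180.Orb`). For an isotrivial step the norms of the pull backs of the pluricanonical forms
of `V_i` are used. The forms of the steps are multiplied along adapted regular vector fields. If some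
`∑ k, w j k < r_j + 1` the traces of the pull backs to `X'` of the sections of `m K_X + A` vanish for
large `m`, and they are polynomials of bounded degree in the coordinates of the factors with
`∑ k, w j k = r_j + 1` (`Pool.Agent.Y191.lc_ab`).
-/

set_option autoImplicit false

open FF Pool.Agent.W602.GT Pool.Agent.Y172 Pool.Agent.Y191 Pool.Agent.X180.OP

namespace Pool.Agent.Results.MP_5c318e_ag.TowersOverAnyBase

/-- **Additivity.** Let `X` be a projective variety with canonical singularities and
`X ⇢ W_l ⇢ ... ⇢ W_0` a tower over a point `W_0`, of which the steps have dimensions `e i` and (log)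
Kodaira dimensions `lam i`, and let the fibres of `X` over `W_l` be as in `CanonicalFibres`. If
`r j + 1 ≤ ∑ i, w j i` for all `j` then `κ(X) ≥ ∑ i, lam i + big`; otherwise `κ(X) = ν(X) = -∞`. If
`lam i = e i` for all `i`, then moreover `κ(X) = ν(X) = dim W_l + big` in the first case. -/
theorem result (K : Type) [Field K] [Algebra ℂ K] (N l c : ℕ)
    (E : Fin (l + 1) → IntermediateField ℂ K) (D : Fin (l + 1) → ℕ) (e lam : Fin l → ℕ)
    (r s : Fin c → ℕ) (y : Fin (N + 1) → K)
    (hy : IsCanonicalVariety y (D (Fin.last l) + ∑ j, r j)) (hE0 : E 0 = ⊥)
    (hT : IsMixedTower {P | IsPrimeDivisor y P} (fun _ => 0) E D e lam)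
    (w : ∀ j, Fin (s j) → ℚ) (hF : CanonicalFibres y (E (Fin.last l)) r s w) :
    CanonicalNonvanishing y (D (Fin.last l) + ∑ j, r j) (∑ i, lam i + big r s w) r s w ∧
      ((∀ i, lam i = e i) →
        CanonicalAbundance y (D (Fin.last l) + ∑ j, r j) (D (Fin.last l)) r s w) := by
  have h1 := fun (lam' : ℕ) (h0 : Pool.Agent.X180.Tow.HasForms (D 0 + (∑ i, e i + ∑ j, r j))
    {P | IsPrimeDivisor y P} (fun _ => 0) (E 0) (∑ i, e i + ∑ j, r j) lam') =>
      point_base hE0 (hT.1 0) h0
  refine ⟨?_, fun hle => ?_⟩
  · have h2 := can_non (k := 0) hy hT hF fun lam' h0 => by
      rw [zero_add]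
      exact (h1 lam' h0).2
    rwa [zero_add] at h2
  · refine can_ab hy hT hle hF fun lam' h0 => ?_
    obtain ⟨h2, h3⟩ := h1 lam' h0
    have h4 : D 0 + lam' = lam' := by rw [h2, zero_add]
    rw [h4]
    exact h3

end Pool.Agent.Results.MP_5c318e_ag.TowersOverAnyBase
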