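import Pool.Agent.X325.OB.TowC

/-!
# Additivity of Kodaira dimensions over towers over log canonical arrangements

Let `X` be a projective manifold (or a projective variety with canonical singularities) and

  `X ⇢ W_l ⇢ ... ⇢ W_1 ⇢ W_0 = P^{n_1} × ... × P^{n_m}`, `l ≥ 0`,

dominant rational maps. Suppose:

* (the base) in each factor there are hyperplanes `ℓ i k = 0`, in any position, with weights `wt i k
  ≥ 0` such that the arrangement is log canonical (the sum of the weights of hyperplanes with a
  common point is at most the codimension of their intersection) and `∑ k, wt i k ≥ n i + 1`: a log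
  Calabi-Yau arrangement if `∑ k, wt i k = n i + 1`, and one of log general type otherwise. If the
  `v i k` are the multiplicities of the hyperplanes at a prime divisor `P` of `X`, not all zero,
  then `1 ≤ ∑ i, (mx_i - ∑ k, wt i k * v i k)`, where `mx_i` is the greatest sum of `n i + 1` of the
  `v i k` whose hyperplanes have no common point, with strict inequality if a distinguished
  hyperplane `k0 i` of a log Calabi-Yau factor `i` has a positive multiplicity at `P`;
* (the steps of the tower) for each `i < l` one of the following:
  * (orbifold) the fibres of `W_{i+1}` over `W_i`, *with the multiplicities of the fibres of `X`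
    over `W_{i+1}`*, correspond to moving log canonical arrangements, of log general type
    (`OrbifoldFibres`);
  * (constant) the fibres of `W_{i+1}` over `W_i`, with the multiplicities of the fibres of `X` over
    `W_{i+1}`, correspond to one orbifold `(V_i, a_i)` of general type: there are a variety `X'`
    with a generically finite map `X' ⇢ X` and a rational map `X' ⇢ V_i` which is constant on the
    fibres of `X' ⇢ W_{i+1}` and dominant on the fibres of `X' ⇢ W_i`; `a_i (p)` is a nonnegative
    function (the log discrepancy) of places of `V_i`, and at the places `Q` over `P` (with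
    ramification index `ε`) which lie over `p` (with ramification index `ν`) one has `ε ≤ ν a_i (p)`
    (`ConstantFibres`). For instance `V_i` is a smooth projective variety, `a_i = 1`, and the fibres
    of `W_{i+1}` over `W_i` are birational to `V_i`;
* (the fibres of `X` over `W_l`, of any Kodaira dimension) there is a correspondence `X'` between
  `X` and a relative product `P^{r_1} × ... × P^{r_c}` over `W_l`, with log canonical moving
  hyperplane arrangements with weights in `[0, 1]`, with conditions on the multiplicities at the
  prime divisors of `X` which dominate `W_l`, and at the places over the prime divisors of the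
  product (`CanonicalFibres`).

Let `λ` be the sum of the `r_j` with `∑ k, w j k > r_j + 1`. If `∑ k, w j k ≥ r_j + 1` for all `j`
(for the fibres over `W_l`) then

  `κ(X) = ν(X) = dim W_l + λ`,

and otherwise `κ(X) = ν(X) = -∞`, i.e. `K_X` is not pseudo-effective.

Relation with Viehweg's question: let `f : X → Y` be a fibration such that `Y` is birational to
`W_l`, with general fibre `F`. By the same upper bound for `F`, and by the easy addition formula
`κ(X) ≤ dim Y + κ(F)`, one has `κ(F) = λ` if `∑ k, w j k ≥ r_j + 1` for all `j`, so that `κ(X) =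
κ(F) + dim Y ≥ κ(F) + max (κ(Y), Var(f))`: this is Q1, in the stronger form with `dim Y`. The
varieties `Y` may have any Kodaira dimension (for instance `l = 1` and `Y = W_1` is a cover of
`W_0`, or a variety of general type over `W_0`), and the fibres may have any variation.

The definitions are those of `Pool/Agent/X180/OP/CanDefs`, `X180/OD/Defs` and
`Pool/Agent/Y191/LcForm`, `LcLow`.
-/

set_option autoImplicit false

open FF Pool.Agent.W602.GT Pool.Agent.Y172 Pool.Agent.Y191
open Pool.Agent.X180.OP (IsCanonicalVariety CanonicalFibres CanonicalAbundance)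
open Pool.Agent.X180.OD (IsTower)

namespace Pool.Agent.Results.MP_5c318e_ag.TowersOverArrangements

variable {m : ℕ} {n q : Fin m → ℕ}

/-- The base: the hyperplanes `ℓ i k = 0` in the projective space of dimension `n i` have weights
`wt i k ≥ 0` with sum at least `n i + 1`, and the arrangements are log canonical (`LcArr`, over the
field of constants). -/
def IsBase (ℓ : ∀ i, Fin (q i) → Fin (n i + 1) → ℂ) (wt : ∀ i, Fin (q i) → ℚ) : Prop :=
  (∀ i, (∀ k, 0 ≤ wt i k) ∧ (n i + 1 : ℚ) ≤ ∑ k, wt i k) ∧
    LcArr (⊥ : IntermediateField ℂ ℂ) ℓ wt

/-- The affine coordinates `x i (j + 1) / x i 0` of the points with the homogeneous coordinates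
`x i`. -/
def affine {K : Type} [Field K] (x : ∀ i, Fin (n i + 1) → K) (b : (i : Fin m) × Fin (n i)) : K :=
  x b.1 b.2.succ / x b.1 0

/-- The multiplicities over the base, at the prime divisors `P` of `X`: if the hyperplanes `ℓ i k`
have the multiplicities `v i k` at `P` (their orders are `a i + v i k`, where `a i` is the minimum
of the orders of the coordinates `x i j`), not all zero, then `1 ≤ ∑ i, (mx_i - ∑ k, wt i k * v i
k)`, with strict inequality if the multiplicity of the distinguished hyperplane `k0 i` is positive
for some `i` with `∑ k, wt i k = n i + 1`. -/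
def Multiplicities {K : Type} [Field K] [Algebra ℂ K] {N : ℕ} (y : Fin (N + 1) → K)
    (ℓ : ∀ i, Fin (q i) → Fin (n i + 1) → ℂ) (wt : ∀ i, Fin (q i) → ℚ)
    (x : ∀ i, Fin (n i + 1) → K) (k0 : ∀ i, Fin (q i)) : Prop :=
  ∀ P, IsPrimeDivisor y P → ∀ (a : Fin m → ℤ) (v : ∀ i, Fin (q i) → ℕ),
    (∀ i, MOrd P (fun k j => algebraMap ℂ K (ℓ i k j)) (x i) (a i) (v i)) → (∃ i, v i ≠ 0) →
    1 ≤ ∑ i, ((mx ℓ i (v i) : ℚ) - ∑ k, wt i k * v i k) ∧
      ((∃ i, ∑ k, wt i k = (n i + 1 : ℚ) ∧ v i (k0 i) ≠ 0) →
        1 < ∑ i, ((mx ℓ i (v i) : ℚ) - ∑ k, wt i k * v i k))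

/-- **Abundance.** Let `ℓ i` be log canonical arrangements of hyperplanes with weights `wt i k` with
sums at least `n i + 1`, as in `IsBase`. Let `X` be a projective variety with canonical
singularities and `X ⇢ W_l ⇢ ... ⇢ W_0` a tower over the product `W_0` of the projective spaces,
given by homogeneous coordinates `x i`, whose steps (orbifold fibrations or constant orbifolds) are
of (log) general type. Suppose that the condition `Multiplicities` holds, and let the fibres of `X`
over `W_l` be as in `CanonicalFibres`. If `r j + 1 ≤ ∑ i, w j i` for all `j` then the Kodaira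
dimension and the numerical dimension of `X` are `dim W_l` plus the sum of the `r j` with `r j + 1 <
∑ i, w j i`; otherwise both are `-∞`. -/
theorem result (ℓ : ∀ i, Fin (q i) → Fin (n i + 1) → ℂ) (wt : ∀ i, Fin (q i) → ℚ)
    (hℓ : IsBase ℓ wt) (k0 : ∀ i, Fin (q i))
    (K : Type) [Field K] [Algebra ℂ K] (N l c : ℕ)
    (E : Fin (l + 1) → IntermediateField ℂ K) (D : Fin (l + 1) → ℕ) (e : Fin l → ℕ)
    (r s : Fin c → ℕ) (y : Fin (N + 1) → K)
    (hy : IsCanonicalVariety y (D (Fin.last l) + ∑ j, r j))
    (x : ∀ i, Fin (n i + 1) → K)
    (hx0 : ∀ i, x i 0 ≠ 0) (hind : AlgebraicIndependent ℂ (affine x))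
    (hE0 : E 0 = IntermediateField.adjoin ℂ (Set.range (affine x)))
    (hm : Multiplicities y ℓ wt x k0)
    (hT : IsTower {P | IsPrimeDivisor y P}
      (fun _ => 0) E D e e)
    (w : ∀ j, Fin (s j) → ℚ) (hF : CanonicalFibres y (E (Fin.last l)) r s w) :
    CanonicalAbundance y (D (Fin.last l) + ∑ j, r j) (D (Fin.last l)) r s w :=
  Pool.Agent.X325.OB.lc_dcan_ab (fun i => (hℓ.1 i).1) (fun i => (hℓ.1 i).2) hℓ.2 hy hx0 hind hE0 k0
    hm hT hF

end Pool.Agent.Results.MP_5c318e_ag.TowersOverArrangements
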