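import Pool.Agent.X140.EF.Var

/-!
# Viehweg's inequality with the variation for fibrations whose fibres dominate the product of any
constant variety and a multiple double cover

Let `X → Y` be a dominant rational map of projective varieties over `ℂ`, and `F` a component of its
geometric generic fibre, a variety over the algebraic closure `Λ` of the function field of `Y`.
Suppose that `F` has a generically finite rational map, which may be ramified anywhere, to a product
`F₀ × Z`, where `F₀` is any variety which is defined over `ℂ` and `Z` is the multiple double cover

  `w k ^ 2 = c k * ∏ i ∈ S k, f i (x i)`, `k < p`,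

of the product of `r` lines over `Λ`, `c k ∈ Λ` not zero, `f i` the product of the `x - a` for `a` in a
finite subset `R i` of `Λ` of at least three elements, and every `i < r` lies in one of the sets `S k`.
For `S k = {k}` this is a product of elliptic and hyperelliptic curves; for `p = 1` it is a quotient of
such a product, for instance a Kummer surface of a product of two elliptic curves, or one of the
Calabi–Yau varieties `w ^ 2 = f 1 (x 1) ⋯ f r (x r)` with cubic polynomials `f i`. Let `u` be the
number of the `f i` of degree at least five, and `v` the number of moduli: there are `v` algebraically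
independent elements of `Λ` which are cross ratios of four branch points of one of the double covers
of the line `y ^ 2 = f i (x)` (the point at infinity is a branch point if the degree of `f i` is odd).
If `κ(Y) ≥ 0` then

  `κ(X) ≥ κ(F₀) + u + max (κ(Y), v)`.

If `F` is birational to `F₀ × Z` then `κ(F) = κ(F₀) + u`, and the field of definition of `F` up to
birational equivalence is contained in the algebraic closure of the field of the cross ratios, since
`Z` is isomorphic over `Λ` to the multiple double cover with three of the branch points of each line
at `0`, `1`, `∞` and `c k = 1`. So the variation of `X → Y` is at most `v` if `v` is the transcendence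
degree of this field, and this is Viehweg's inequality. No assumption is made on `F₀`: the existence
of a good minimal model of `F`, for which the inequality is known by Kawamata, is not needed.

Notation: `K` is the function field of `X`, that of `Y` is the subfield `E`. `KodTr k K n h`: the
Kodaira dimension is at least `h`, that is, there are `h + 1` pluricanonical forms of which the `h`
ratios are algebraically independent (`Pool/Agent/W619`). The definition `IsGeometricFibre` is in
`Pool.Agent.X140.EF.TDefs`, and `Moduli` in `Pool.Agent.X140.EF.Mod1`.

Proof: let `n` be the degree of `f = f i` or this degree plus one, an even number. The form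
`disc (f) (d x) ^ (n (n - 1)) / f (x) ^ (2 (n - 1))` is the product of the logarithmic forms
`(a - b) d x / ((x - a) (x - b))` of the pairs of branch points, and its product with a cross ratio
`(a - d) (c - b) / ((a - b) (c - d))` is again such a product, of other pairs, in which every branch
point occurs as often as before. So the products of these forms with the cross ratios, although these
have zeros and poles on `Y`, take regular values on the regular vector fields along the fibres, like
the forms themselves and the Hessian forms which give the summand `u`. These are `h + u + v + 1` forms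
along the fibres, and their ratios are algebraically independent over `ℂ`. The coefficients of the
norms are forms along the fibres of `X`; they are multiplied with one pluricanonical form of `Y`
(`Pool.Agent.X140.EF.kod_compC`). The inequality with `κ(Y)` in place of `v` is the theorem
`Pool.Agent.X140.EF.kod_comp` for the forms without the cross ratios.
-/

set_option autoImplicit false

open Pool.Agent.W619.Y Pool.Agent.X140.EF

namespace Pool.Agent.Results.MP_5c318e_ag.VariationOfCovers

section

variable {Λ F : Type} [Field Λ] [Field F] [Algebra ℂ F] [Algebra Λ F]

/-- The variety over `Λ` with function field `F` has a generically finite rational map to the product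
of the variety over `ℂ` with function field `M` and of the multiple double cover
`w k ^ 2 = c k * ∏ i ∈ S k, ∏ a ∈ R i, (x i - a)`, `k < p`, of the product of `r` lines: the `c k` are
nonzero elements of `Λ`, the `R i` finite subsets of `Λ` of at least three elements, every `j < r`
lies in some `S k`, `x j` and `w k` are the coordinates of the map, and `F` is algebraic over the
field generated by `Λ`, `M` and the `x j`. -/
def Dominates {r p : ℕ} (M : IntermediateField ℂ F) (R : Fin r → Finset Λ)
    (S : Fin p → Finset (Fin r)) (c : Fin p → Λ) (x : Fin r → F) (w : Fin p → F) : Prop :=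
  (∀ j, 3 ≤ (R j).card) ∧ (∀ j, ∃ k, j ∈ S k) ∧
  (∀ k, c k ≠ 0 ∧ w k ^ 2 = algebraMap Λ F (c k) *
    ∏ i ∈ S k, ∏ a ∈ R i, (x i - algebraMap Λ F a)) ∧
  ∀ z : F, IsAlgebraic (IntermediateField.adjoin Λ ((M : Set F) ∪ Set.range x)) z

omit [Field F] [Algebra ℂ F] [Algebra Λ F] in
/-- The number of the `R i` with at least five elements. -/
noncomputable def HighDegree {Λ : Type} {r : ℕ} (R : Fin r → Finset Λ) : ℕ :=
  (Finset.univ.filter fun j => 5 ≤ (R j).card).card

end

/-- **Viehweg's inequality.** Let `K` be the function field of a projective variety `X` of dimension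
`d + r + t`, and `X → Y` a dominant rational map to a variety of dimension `d` with function field
`E ⊆ K`, `F` the function field of a component of the geometric generic fibre, a variety over the
algebraic closure `Λ` of `E`. Let `M` be the function field of a variety `F₀` over `ℂ` of dimension
`t` with `κ(F₀) ≥ h`, and let the component have a generically finite rational map to `F₀ × Z`, `Z`
the multiple double cover `w k ^ 2 = c k * ∏ i ∈ S k, ∏ a ∈ R i, (x i - a)`, `k < p`. Let `z i`
(`i < v`) be moduli, algebraically independent over `ℂ`. If `κ(Y) ≥ κ`, `κ ≥ 0`, then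
`κ(X) ≥ h + u + max (κ, v)`. -/
theorem result {K : Type} [Field K] [Algebra ℂ K] (d r t : ℕ)
    -- the map to `Y`
    (E : IntermediateField ℂ K) [Algebra.EssFiniteType ℂ E] (hE : Algebra.trdeg ℂ E = d)
    (hK : Algebra.trdeg ℂ K = (d + (r + t) : ℕ))
    -- the geometric generic fibre
    {Λ F : Type} [Field Λ] [Field F] [Algebra ℂ Λ] [Algebra ℂ F] [Algebra Λ F] [Algebra K F]
    [IsScalarTower ℂ Λ F] [IsScalarTower ℂ K F] (hF : IsGeometricFibre E Λ F)
    -- the constant variety and the multiple double cover
    (M : IntermediateField ℂ F) [Algebra.EssFiniteType ℂ M] (hM : Algebra.trdeg ℂ M = t)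
    {p : ℕ} (R : Fin r → Finset Λ) (S : Fin p → Finset (Fin r)) (c : Fin p → Λ) (x : Fin r → F)
    (w : Fin p → F) (hdom : Dominates M R S c x w) (h : ℕ) (hh : KodTr ℂ M t h)
    -- the moduli
    (v : ℕ) (z : Fin v → Λ) (hz : ∀ i, ∃ j, z i ∈ Moduli (R j))
    (hzi : AlgebraicIndependent ℂ (fun i => algebraMap Λ F (z i)))
    (κ : ℕ) (hκ : KodTr ℂ E d κ) :
    KodTr ℂ K (d + (r + t)) (h + HighDegree R + max κ v) := by
  obtain ⟨-, -, hΛ, hgen⟩ := hF
  obtain ⟨Q, hQ⟩ : ∃ Q : Finset (Fin r), Q = Finset.univ.filter fun j => 5 ≤ (R j).card :=
    ⟨_, rfl⟩
  have hQu : Q.card = HighDegree R := by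
    rw [hQ]
    rfl
  have hQ5 : ∀ j ∈ Q, 5 ≤ (R j).card := by
    intro j hj
    rw [hQ, Finset.mem_filter] at hj
    exact hj.2
  rcases le_total v κ with hv | hv
  · rw [max_eq_left hv]
    have h1 := geo_cov hK (L := E) (U := E) (Pool.Agent.X180.Iso.trdeg_rel hK hE)
      (fun x hx => isAlgebraic_algebraMap (⟨x, hx⟩ : E)) hgen hΛ M hM (f := fun j => rp (R j))
      (x := x) (fun j => ⟨rp_monic _, rp_separable _, by rw [rp_natDegree]; exact hdom.1 j⟩)
      hdom.2.1 (c := c) (w := w)
      (fun k => ⟨(hdom.2.2.1 k).1, by simp only [rp_aeval]; exact (hdom.2.2.1 k).2⟩)
      (Q.orderEmbOfFin hQu).injective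
      (fun i => by rw [rp_natDegree]; exact hQ5 _ (Q.orderEmbOfFin_mem hQu i)) hdom.2.2.2
      (Pool.Agent.X180.Abn.kodGe_of_kodTr hh) {P | True}
    have h2 := kod_comp hK hE hκ h1
    rwa [Nat.add_comm κ] at h2
  · rw [max_eq_right hv]
    exact kod_compC hK hE (kodTr_le hκ) (geo_mod hK (L := E) (U := E)
      (Pool.Agent.X180.Iso.trdeg_rel hK hE)
      (fun x hx => isAlgebraic_algebraMap (⟨x, hx⟩ : E)) hgen hΛ M hM hdom.1 hdom.2.1
      hdom.2.2.1 (Q.orderEmbOfFin hQu).injective
      (fun i => hQ5 _ (Q.orderEmbOfFin_mem hQu i)) hdom.2.2.2
      (Pool.Agent.X180.Abn.kodGe_of_kodTr hh) hz hzi {P | True})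

end Pool.Agent.Results.MP_5c318e_ag.VariationOfCovers
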